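import Mathlib

/-!
# Integral choice from a real point of a Minkowski sum of simplices (MP_eb8c5c_co)
-/

set_option autoImplicit false

open Finset

namespace Pool.Agent.Helper43.SOC

/-- rows with sum one supported on `S j`, integral column sums: an integral choice exists -/
theorem exists_choice {J : Type*} [Fintype J] {d : ℕ} (S : J → Finset (Fin d)) (v : Fin d → ℕ)
    (L : J → Fin d → ℝ) (h0 : ∀ j c, 0 ≤ L j c) (hS : ∀ j c, c ∉ S j → L j c = 0)
    (h1 : ∀ j, ∑ c, L j c = 1) (h2 : ∀ c, ∑ j, L j c = v c) :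
    ∃ g : J → Fin d, (∀ j, g j ∈ S j) ∧ ∀ c, (univ.filter (fun j => g j = c)).card = v c := by
  classical
  -- the slots
  set t : J → Finset (Σ c : Fin d, Fin (v c)) := fun j => univ.filter (fun s => s.1 ∈ S j) with ht
  have hcard : ∀ B : Finset (Fin d),
      (univ.filter (fun s : Σ c : Fin d, Fin (v c) => s.1 ∈ B)).card = ∑ c ∈ B, v c := by
    intro B
    have h3 : (univ.filter (fun s : Σ c : Fin d, Fin (v c) => s.1 ∈ B)) =
        B.sigma (fun c => (univ : Finset (Fin (v c)))) := by
      ext s
      simp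
    rw [h3, Finset.card_sigma]
    simp
  have hall : ∀ A : Finset J, A.card ≤ (A.biUnion t).card := by
    intro A
    have h3 : A.biUnion t =
        univ.filter (fun s : Σ c : Fin d, Fin (v c) => s.1 ∈ A.biUnion S) := by
      ext s
      simp [ht]
    rw [h3, hcard]
    have h4 : (A.card : ℝ) ≤ ((∑ c ∈ A.biUnion S, v c : ℕ) : ℝ) := by
      calc (A.card : ℝ) = ∑ j ∈ A, ∑ c, L j c := by
            rw [Finset.sum_congr rfl fun j _ => h1 j]
            simp
        _ = ∑ j ∈ A, ∑ c ∈ A.biUnion S, L j c := by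
            refine Finset.sum_congr rfl fun j hj => ?_
            symm
            apply Finset.sum_subset (Finset.subset_univ _)
            intro c _ hc
            apply hS
            intro h5
            exact hc (Finset.mem_biUnion.2 ⟨j, hj, h5⟩)
        _ = ∑ c ∈ A.biUnion S, ∑ j ∈ A, L j c := Finset.sum_comm
        _ ≤ ∑ c ∈ A.biUnion S, ∑ j, L j c := by
            refine Finset.sum_le_sum fun c _ => ?_
            exact Finset.sum_le_sum_of_subset_of_nonneg (Finset.subset_univ _)
              fun j _ _ => h0 j c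
        _ = ((∑ c ∈ A.biUnion S, v c : ℕ) : ℝ) := by
            push_cast
            exact Finset.sum_congr rfl fun c _ => h2 c
    exact_mod_cast h4
  obtain ⟨f, hf, hft⟩ := (Finset.all_card_le_biUnion_card_iff_exists_injective t).1 hall
  have hcJ : Fintype.card J = Fintype.card (Σ c : Fin d, Fin (v c)) := by
    have h3 : ((Fintype.card J : ℕ) : ℝ) = ((∑ c, v c : ℕ) : ℝ) := by
      calc ((Fintype.card J : ℕ) : ℝ) = ∑ j : J, ∑ c, L j c := by
            rw [Finset.sum_congr rfl fun j _ => h1 j]
            simp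
        _ = ∑ c, ∑ j, L j c := Finset.sum_comm
        _ = ((∑ c, v c : ℕ) : ℝ) := by
            push_cast
            exact Finset.sum_congr rfl fun c _ => h2 c
    rw [Fintype.card_sigma]
    simp only [Fintype.card_fin]
    exact_mod_cast h3
  have hbij : Function.Bijective f := (Fintype.bijective_iff_injective_and_card f).2 ⟨hf, hcJ⟩
  refine ⟨fun j => (f j).1, fun j => ?_, fun c => ?_⟩
  · have := hft j
    rw [ht] at this
    simpa using this
  · have h3 : (univ.filter (fun j => (f j).1 = c)).card =
        (univ.filter (fun s : Σ c : Fin d, Fin (v c) => s.1 ∈ ({c} : Finset (Fin d)))).card := by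
      refine Finset.card_bij (fun j _ => f j) ?_ ?_ ?_
      · intro j hj
        simpa using hj
      · intro j _ j' _ h
        exact hf h
      · intro s hs
        obtain ⟨j, hj⟩ := hbij.2 s
        refine ⟨j, ?_, hj⟩
        simp only [Finset.mem_filter, Finset.mem_univ, true_and, Finset.mem_singleton] at hs ⊢
        rw [hj]
        exact hs
    rw [h3, hcard, Finset.sum_singleton]

/-- points of the simplex spanned by the unit vectors of the colours in `B` -/
theorem mem_hull {d : ℕ} (B : Finset (Fin d)) {x : Fin d → ℝ}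
    (hx : x ∈ convexHull ℝ ((fun c : Fin d => (Pi.single c 1 : Fin d → ℝ)) '' (B : Set (Fin d)))) :
    (∀ c, 0 ≤ x c) ∧ (∀ c, c ∉ B → x c = 0) ∧ ∑ c, x c = 1 := by
  have h1 : convexHull ℝ ((fun c : Fin d => (Pi.single c 1 : Fin d → ℝ)) '' (B : Set (Fin d))) ⊆
      {x | (∀ c, 0 ≤ x c) ∧ (∀ c, c ∉ B → x c = 0) ∧ ∑ c, x c = 1} := by
    apply convexHull_min
    · rintro _ ⟨c, hc, rfl⟩
      refine ⟨fun c' => ?_, fun c' hc' => ?_, ?_⟩
      · by_cases h : c' = c
        · subst h; simp
        · simp [Pi.single_apply, h]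
      · have h : c' ≠ c := by
          rintro rfl
          exact hc' hc
        simp [Pi.single_apply, h]
      · simp [Pi.single_apply]
    · intro x hx y hy a b ha hb hab
      refine ⟨fun c => ?_, fun c hc => ?_, ?_⟩
      · have := hx.1 c
        have := hy.1 c
        simp only [Pi.add_apply, Pi.smul_apply, smul_eq_mul]
        positivity
      · simp [hx.2.1 c hc, hy.2.1 c hc]
      · simp only [Pi.add_apply, Pi.smul_apply, smul_eq_mul]
        rw [Finset.sum_add_distrib, ← Finset.mul_sum, ← Finset.mul_sum, hx.2.2, hy.2.2, mul_one,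
          mul_one, hab]
  exact h1 hx

open Pointwise in
/-- **M5**: an integral point of the Minkowski sum of the simplices spanned by the tie sets of the row `k` is the
content of a choice of colours in the tie sets -/
theorem exists_choice_row {n d : ℕ} (hd : 1 ≤ d) (k : Fin n) (S : Fin n → Finset (Fin d))
    (v : Fin d → ℕ)
    (hmem : (fun c => (v c : ℝ)) ∈ ∑ j ∈ univ.erase k,
      convexHull ℝ ((fun c : Fin d => (Pi.single c 1 : Fin d → ℝ)) '' (S j : Set (Fin d)))) :
    ∃ g : Fin n → Fin d, (∀ j, j ≠ k → g j ∈ S j) ∧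
      ∀ c, (univ.filter (fun j => j ≠ k ∧ g j = c)).card = v c := by
  classical
  rw [Set.mem_finsetSum] at hmem
  obtain ⟨x, hx, hsum⟩ := hmem
  have hx' : ∀ j : {j : Fin n // j ≠ k}, x j ∈
      convexHull ℝ ((fun c : Fin d => (Pi.single c 1 : Fin d → ℝ)) '' (S j : Set (Fin d))) :=
    fun j => hx (Finset.mem_erase.2 ⟨j.2, Finset.mem_univ _⟩)
  obtain ⟨g, hg, hv⟩ := exists_choice (J := {j : Fin n // j ≠ k}) (fun j => S j) v (fun j c => x j c)
    (fun j c => (mem_hull _ (hx' j)).1 c) (fun j c hc => (mem_hull _ (hx' j)).2.1 c hc)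
    (fun j => (mem_hull _ (hx' j)).2.2) (fun c => by
      have h1 : (∑ j ∈ univ.erase k, x j) c = (v c : ℝ) := by rw [hsum]
      rw [← h1, Finset.sum_apply]
      have h2 : ∀ j : Fin n, j ∈ univ.erase k ↔ j ≠ k := by
        intro j
        simp
      exact (Finset.sum_subtype (univ.erase k) h2 (fun j => x j c)).symm)
  refine ⟨fun j => if h : j ≠ k then g ⟨j, h⟩ else ⟨0, hd⟩, fun j hj => ?_, fun c => ?_⟩
  · have h1 : (if h : j ≠ k then g ⟨j, h⟩ else ⟨0, hd⟩) = g ⟨j, hj⟩ := dif_pos hj
    simp only
    rw [h1]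
    exact hg ⟨j, hj⟩
  · rw [← hv c]
    symm
    refine Finset.card_bij (fun j _ => j.1) ?_ ?_ ?_
    · intro j hj
      simp only [Finset.mem_filter, Finset.mem_univ, true_and] at hj ⊢
      refine ⟨j.2, ?_⟩
      rw [dif_pos j.2]
      exact hj
    · intro j _ j' _ h
      exact Subtype.ext h
    · intro j hj
      simp only [Finset.mem_filter, Finset.mem_univ, true_and] at hj
      refine ⟨⟨j, hj.1⟩, ?_, rfl⟩
      simp only [Finset.mem_filter, Finset.mem_univ, true_and]
      have h1 := hj.2
      rw [dif_pos hj.1] at h1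
      exact h1

end Pool.Agent.Helper43.SOC
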